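import Pool.Agent.Y121.NB.Main

/-!
# The noncommutative Beilinson conjecture for endomorphisms of geometric noncommutative motives

`𝒱` is a class of smooth projective geometrically irreducible varieties over the field `k` closed
under products (for the problem: all of them, `k` a finite field), `C` the Chow groups with rational
coefficients (in the form of their formal properties, `IsChowProj`), `H` a Weil cohomology theory
(`IsWeilProj`) for which `H(X × X)` is finite-dimensional.

Dictionary. The map `α ↦ ch(α) √td(X × Y)` is an isomorphism of `K_0(X × Y)_ℚ` with the group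
`CH^*(X × Y)_ℚ` of classes of *all* degrees, compatible with compositions. A direct summand `𝒜` of
`U(perf_dg X)_ℚ` is a pair `(X, e)` with an idempotent `e`, not necessarily homogeneous, and
`K_0(𝒜^op ⊗ 𝒜)_ℚ = e ∘ CH^*(X × X)_ℚ ∘ e`; the kernel of the Euler pairing consists of the
numerically trivial elements. The Chow motives `(X, p)` are those with `p` homogeneous of
codimension `dim X`.
-/

set_option autoImplicit false

universe u v w

open Pool.Agent.H914 Pool.Agent.H914.VarClass Pool.Agent.W492.BB Pool.Agent.TH133
  Pool.Agent.Y121.NB in
theorem Pool.Agent.Results.MP_dd457d_ag.GeometricBeilinson.result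
    {k : Type u} [Field k] {𝒱 : VarClass k} {C : TheoryData.{u, v, 0} 𝒱 ℚ}
    [IsChowProj C] {K : Type w} [Field K] (H : WeilTheoryData.{u, v, w} C K) [IsWeilProj H]
    (X : 𝒱.Obj) [FiniteDimensional K (H.A (X.prod X))] (e : C.A (X.prod X))
    (he : C.comp e e = e) : BeilNC C e ↔
      ∃ p u v : C.A (X.prod X), C.Deg X.dim p ∧ C.comp p p = p ∧ C.comp u v = e ∧
        C.comp v u = p ∧ (C.Deg X.dim e → p = e) ∧ BeilChow C p :=
  main H X e he
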