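import Mathlib
import Pool.Agent.Y1.CT.Thms
import Pool.Agent.Y156.P.Main
import Pool.Agent.Y156.P.Crit

/-!
# The noncommutative conjecture of Beilinson and products with abelian varieties with irreducible
fields of Frobenius

Let `p` be a prime number, `q = p ^ a`, and let `K i` (`i` in a finite set) be CM fields, of arbitrary
degrees `2 g i`, with irreducible odd parts (`OddIrreducible`): the rational functions on the set of
the complex embeddings of `K i` which change their sign under complex conjugation form an irreducible
representation of the group of automorphisms of `ℂ`. Let `π i` be a Weil number for `q` which
generates `K i` and is not supersingular, that is, some slope is different from `1 / 2`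
(`IsIrreducibleWeil`). By Honda and Tate they correspond to abelian varieties `A i` over finite fields.
There are no other conditions on `π i`, in particular none on the slopes.

By the fourth part of the theorem (`IrreducibilityCriteria`) the odd part of `K i` is irreducible

* if `K i` has a flip (`HasFlip`): an automorphism of `ℂ` that exchanges two complex conjugate
  embeddings of `K i` and fixes all others; so in particular if the Galois group has the largest
  possible order `2 ^ g g!`. This is the generic case, in all dimensions;
* if `g i` is an odd prime number and `K i` has no quadratic subfield.

The fields `K i` are pairwise independent (`PairwiseIndep`): for `i ≠ k` and all complex embeddings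
`φ` of `K i` and `ψ` of `K k` some automorphism of `ℂ` is the identity on `φ (K i)` and the complex
conjugation on `ψ (K k)`. This is no condition if there is only one field. By the second part of the
theorem (`FieldsIndependent`) fields of pairwise different degrees are pairwise independent if all of
them, except perhaps the one of smallest degree, have irreducible odd parts. So no condition of
independence is left for abelian varieties of pairwise different dimensions.

Let `f i` be monic polynomials whose complex roots are conjugates of `π i` (`IsPolyOf`), for instance
powers of the characteristic polynomials of Frobenius of the `A i`.
Let `A` be an abelian variety over the field with `Q = q ^ s`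
elements which is isogenous to a product of powers of abelian varieties coming from the field with
`q` elements, with characteristic polynomials `f i`, and let `Z` be **any** smooth projective variety
over the field with `Q` elements such that

* the eigenvalues `ρ` of Frobenius on the cohomology of `Z` and their conjugates are independent of
  the fields `K i` (`Independent`): for each complex embedding `ψ` of `K i` there is an automorphism
  `τ` of `ℂ` which fixes a power of `ρ` and is the complex conjugation on `ψ (K i)`. This is so if the
  eigenvalues have powers in a number field which is linearly disjoint from the normal closures of
  the `K i`, or powers in a totally real field (take for `τ` the complex conjugation);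
* homologically trivial self-correspondences of degree zero of `A × Z` are nilpotent, for instance
  the motive of `Z` is finite-dimensional in the sense of Kimura and O'Sullivan. This is known for
  all varieties dominated by products of curves, and for their products with `A`.

Let `𝒜` be a smooth proper dg category whose noncommutative motive with rational coefficients is a
direct summand of the one of `Z`, for instance the category of perfect complexes on `Z`, or a
component of a semi-orthogonal decomposition of it. It is given by an idempotent `e` in the ring
`K_0(Z × Z)_ℚ`, which is identified with `CH(Z × Z)_ℚ` (all degrees together) by the Chern
character multiplied by the square root of the Todd class. The noncommutative motive of the dg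
category `perf(A) ⊗ 𝒜` is `(A × Z, 1 × e)`.

There are finitely many products `D j` of divisors on `A` such that
`K_0(perf(A) ⊗ 𝒜)_ℚ = ⨁ D j × K_0(𝒜)_ℚ`, and the same for the kernels of the Euler pairings
`χ_ℚ`. In particular **`Ker (χ_ℚ) = 0` for `perf(A) ⊗ 𝒜` if and only if `Ker (χ_ℚ) = 0` for `𝒜`:
the noncommutative Beilinson conjecture for `perf(A) ⊗ 𝒜` is equivalent to the one for `𝒜`.**
The Frobenius endomorphism acts on `CH^i(A × Z)_ℚ` as multiplication by `Q ^ i`.

The framework (`TheoryData`, `IsChow`, `IsWeil`) is the one of helper492: the Chow groups `C` with
their pull-backs, push-forwards and products, and a Weil cohomology theory `H` with coefficients in
an algebraically closed field, on a class `𝒱` of smooth proper varieties over `k`.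

The third part of the theorem (`NumbersIndependent`): **all** nonzero algebraic numbers `ρ` of degree
less than `2 g i` over the rational numbers, for all `i`, are independent of the fields `K i` with
irreducible odd parts. So the condition on the eigenvalues of `Z` is satisfied if the Betti numbers of
`Z` are less than `2 g i` for all `i`: the eigenvalues in each degree are roots of a rational
polynomial of this degree. In particular no condition is left for an arbitrary `Z` if the dimensions
`g i` are pairwise different and sufficiently large.

The results `AllCMTypesTimes` (by helper1, whose library is used here) and `AlmostAllAbelianFactors`
are about families, with exceptions: almost all slope types, almost all isogeny classes. The result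
`PrimeDimensionFactors` is about prime dimensions `g i`. Here the dimensions are arbitrary, and there
are no exceptions. That the powers of one abelian variety with Galois group of order `2 ^ g g!` have
only the Tate classes generated by divisors is well known; new are the products of several ones and
the relations with the eigenvalues of `Z`.

The proof. Suppose that the product of `ρ` and of some eigenvalues `φ (π i)` of `A`, no two of them
complex conjugate, is a power of `q`, up to a root of unity. By the argument of `AllCMTypesTimes` it
is sufficient to prove for each field `K = K i` the following. Let `w (φ)` be the slope of `φ (π)`
minus `1 / 2`, a function on the complex embeddings of `K` which is odd, that is, changes the sign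
under complex conjugation. Then not all its translates are orthogonal to a nonzero space `S` of odd
rational functions which is stable under the automorphisms of `ℂ`. But `S` is the space of all odd
functions, and then `w = 0`, that is, `π` is supersingular.

For the second and third parts: if there is no automorphism `τ` which fixes `ρ` and conjugates `ψ`,
then the difference of the characteristic functions of the orbits of `ψ` and of its conjugate under
the stabilizer of `ρ` is a nonzero odd function, and its translates, which are numbered by the
conjugates of `ρ` and come in pairs with opposite signs, span all odd functions; so the degree of `ρ`
is at least `2 g`. For the second part take for `ρ` a generator of the smaller field. For the fourth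
part: if `τ` is a flip of `ψ` and `u` is an odd function in `S` with `u ψ ≠ 0`, then `u - u τ` is a
multiple of the characteristic function of `ψ` minus the one of its conjugate, and its translates span
all odd functions. If `g` is an odd prime number, let `σ` be an element of order `g` of the image of
the group of automorphisms in the permutations of the embeddings (Cauchy). If `S` is a nonzero proper
invariant subspace, `S'` its orthogonal space, then the cyclic correlations of the restrictions of
`u ∈ S`, `u' ∈ S'` to an orbit of `σ` are zero, and since the cyclotomic polynomial of order `g` is
irreducible over `ℚ`, `S` or `S'` consists of functions constant on the orbits of `σ`; this gives a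
quadratic subfield.
-/

set_option autoImplicit false

namespace Pool.Agent.Results.MP_dd457d_ag.IrreducibleFields

open NumberField Polynomial Pool.Agent.H977R3.CM Pool.Agent.Y1.CT Pool.Agent.Y156.P

/-- **The noncommutative conjecture of Beilinson for `perf(A) ⊗ 𝒜` is equivalent to the one for `𝒜`,
for all products `A` of powers of abelian varieties with irreducible fields of Frobenius and all
independent varieties `Z`.** -/
theorem result :
    (∀ (p : ℕ) [Fact p.Prime] (a : ℕ), 0 < a → ∀ (I : Type) [Fintype I] (K : I → Type)
      [∀ i, Field (K i)] [∀ i, NumberField (K i)] [∀ i, IsCMField (K i)], PairwiseIndep K →
      ∀ (π : ∀ i, K i) (f : I → ℤ[X]), (∀ i, IsIrreducibleWeil p a (π i)) →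
      (∀ i, IsPolyOf (π i) (f i)) → NCNumTimes K (p ^ a) f) ∧
    FieldsIndependent ∧ NumbersIndependent ∧ IrreducibilityCriteria :=
  ⟨fun _ _ _ ha _ _ _ _ _ _ hK _ _ hπ hf =>
    ncNumTimes (Nat.one_lt_pow ha.ne' (Fact.out : Nat.Prime _).one_lt) (noRel_irr hK hπ hf),
    fieldsIndependent_holds, numbersIndependent_holds, irreducibilityCriteria_hold⟩

end Pool.Agent.Results.MP_dd457d_ag.IrreducibleFields
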